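import Pool.Agent.Lib.SmNH.StmtI
import Pool.Agent.Lib.SmN.G6.LFactsOk

/-!
# HEIGHTS over SMITH-U: adapted bases of the relaxed Selmer codes

The flag `SelpN ⊇ LH 1 ⊇ LH 2 ⊇ ...` modulo the codes of the coboundaries.
-/

set_option autoImplicit false

open Finset

namespace Pool.Agent.SmNH

open Pool.Agent.SmN Pool.Agent.SmN.CData
open Pool.Agent.Sm (Adapted exists_adapted)

variable {G V V1 Pl M : Type} [Group G] [AddCommGroup V] [DistribMulAction G V]
  [AddCommGroup V1] [Module (ZMod 2) V1] [AddCommGroup M] [DistribMulAction G M]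
  {S : Sys G V V1 Pl} {X : PSys} {cd : CData S X} {J : Type} [Fintype J]

/-- The relaxed Selmer codes, as a submodule of the valid codes. -/
def selpU (hc : cd.Ok) (p : J → cd.Mk) : Submodule (ZMod 2) (cd.VF p) where
  carrier := {c | c.1 ∈ cd.SelpN p}
  zero_mem' := ⟨valid_zero p, fun j => by
    rw [ZeroMemClass.coe_zero, homN_zero hc]
    exact (S.W (cd.chiN p) _).zero_mem⟩
  add_mem' := by
    intro a b ha hb
    refine ⟨(cd.VF p).add_mem a.2 b.2, fun j => ?_⟩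
    rw [Submodule.coe_add, homN_add hc a.2 b.2]
    exact (S.W (cd.chiN p) _).add_mem (ha.2 j) (hb.2 j)
  smul_mem' := by
    intro r a ha
    have hz : ∀ x : ZMod 2, x = 0 ∨ x = 1 := by decide
    rcases hz r with rfl | rfl
    · rw [zero_smul]
      refine ⟨valid_zero p, fun j => ?_⟩
      rw [ZeroMemClass.coe_zero, homN_zero hc]
      exact (S.W (cd.chiN p) _).zero_mem
    · rw [one_smul]
      exact ha

theorem mem_selpU (hc : cd.Ok) (p : J → cd.Mk) (c : cd.VF p) :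
    c ∈ selpU hc p ↔ c.1 ∈ cd.SelpN p := Iff.rfl

/-- The Selmer codes are relaxed Selmer codes. -/
theorem FN_sub_SelpN (p : J → cd.Mk) : cd.FN p ⊆ cd.SelpN p :=
  fun _ hc => ⟨hc.1, fun j => hc.2.2 _⟩

omit [Fintype J] in
/-- The codes of the coboundaries, as a linear map. -/
def kapU (p : J → cd.Mk) : V1 →ₗ[ZMod 2] cd.VF p where
  toFun z := ⟨cd.kapN J z, valid_kap p z⟩
  map_add' z z' := Subtype.ext (kapN_add z z')
  map_smul' a z := Subtype.ext (kapN_smul a z)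

omit [Fintype J] in
theorem mem_range_kapU (p : J → cd.Mk) (c : cd.VF p) :
    c ∈ LinearMap.range (kapU p) ↔ ∃ z, c.1 = cd.kapN J z := by
  constructor
  · rintro ⟨z, rfl⟩
    exact ⟨z, rfl⟩
  · rintro ⟨z, hz⟩
    exact ⟨z, Subtype.ext hz.symm⟩

section

variable (h : S.Ok) (hc : cd.Ok) (p : J → cd.Mk)

/-- The shifted flag. -/
noncomputable def flg (i : ℕ) : Submodule (ZMod 2) (cd.VF p) :=
  if i ≤ 1 then selpU hc p else (twN cd h hc p (cd.VF p) fun _ => Iff.rfl).L (i - 1)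

variable {p}

include h hc

theorem flg_one : flg h hc p 1 = selpU hc p := if_pos le_rfl

theorem flg_succ {i : ℕ} (hi : 1 ≤ i) :
    flg h hc p (i + 1) = (twN cd h hc p (cd.VF p) fun _ => Iff.rfl).L i := by
  rw [flg, if_neg (by omega), Nat.add_sub_cancel]

theorem mem_flg_succ (hp : cd.PVecN p) {i : ℕ} (hi : 1 ≤ i) (a : cd.VF p) :
    a ∈ flg h hc p (i + 1) ↔ a.1 ∈ LH cd p i := by
  rw [flg_succ h hc hi, ← mem_LflN_iff_tw h hc (fun _ => Iff.rfl) hp hi a]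

theorem LH_sub_FN (hp : cd.PVecN p) {i : ℕ} (hi : 1 ≤ i) : LH cd p i ⊆ cd.FN p :=
  LflN_sub_FN (U := cd.VF p) h hc (fun _ => Iff.rfl) hp hi

theorem flg_anti (hp : cd.PVecN p) (j : ℕ) (hj : 1 ≤ j) : flg h hc p (j + 1) ≤ flg h hc p j := by
  rcases Nat.lt_or_ge 1 j with hj1 | hj1
  · obtain ⟨j, rfl⟩ := Nat.exists_eq_add_of_le' hj
    have hj2 : 1 ≤ j := by omega
    rw [flg_succ h hc hj, flg_succ h hc hj2]
    exact Pool.Agent.Sm.Tower.L_succ_le (twN_ok h hc (fun _ => Iff.rfl) hp) hj2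
  · obtain rfl : j = 1 := le_antisymm hj1 hj
    rw [flg_one]
    intro a ha
    exact FN_sub_SelpN p (LH_sub_FN h hc hp le_rfl ((mem_flg_succ h hc hp le_rfl a).1 ha))

theorem kap_mem_LH (hp : cd.PVecN p) {i : ℕ} (hi : 1 ≤ i) (z : V1) : cd.kapN J z ∈ LH cd p i := by
  have h1 : (kapU p z : cd.VF p) ∈ (twN cd h hc p (cd.VF p) fun _ => Iff.rfl).Kp := by
    rw [Pool.Agent.Sm.Tower.mem_Kp, twN_T, Sys.mem_Cob, twN_c]
    refine ⟨S.iota z, funext fun s => ?_⟩
    change S.iota (cd.homN p (cd.kapN J z) s) = _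
    rw [homN_kap hc, Sys.dl_iota h]
  have h2 := Pool.Agent.Sm.Tower.kp_le_L (twN_ok h hc (fun _ => Iff.rfl) hp) hi h1
  exact (mem_LflN_iff_tw h hc (fun _ => Iff.rfl) hp hi _).2 h2

theorem LH_anti (hp : cd.PVecN p) {i j : ℕ} (hi : 1 ≤ i) (hij : i ≤ j) :
    LH cd p j ⊆ LH cd p i := by
  intro a ha
  have hv : a ∈ cd.VF p := (LH_sub_FN h hc hp (hi.trans hij) ha).1
  have h1 := (mem_LflN_iff_tw h hc (fun _ => Iff.rfl) hp (hi.trans hij) ⟨a, hv⟩).1 ha
  exact (mem_LflN_iff_tw h hc (fun _ => Iff.rfl) hp hi ⟨a, hv⟩).2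
    (Pool.Agent.Sm.Tower.L_anti (twN_ok h hc (fun _ => Iff.rfl) hp) hi hij h1)

theorem range_kap_le (hp : cd.PVecN p) {i : ℕ} (hi : 1 ≤ i) :
    LinearMap.range (kapU p) ≤ flg h hc p (i + 1) := by
  intro c hcc
  obtain ⟨z, hz⟩ := (mem_range_kapU p c).1 hcc
  rw [mem_flg_succ h hc hp hi, hz]
  exact kap_mem_LH h hc hp hi z

end

omit [Fintype J] in
theorem coe_sum_smul {p : J → cd.Mk} {r : ℕ} (α : Fin r → ZMod 2) (cc : Fin r → cd.VF p) :
    ((∑ l, α l • cc l : cd.VF p) : cd.CodeN J) = ∑ l, α l • (cc l).1 := by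
  rw [Submodule.coe_sum]
  rfl

/-- From an adapted family to the three properties of the bases. -/
theorem adapted_props (h : S.Ok) (hc : cd.Ok) {p : J → cd.Mk} (hp : cd.PVecN p) {m r : ℕ}
    {cc : Fin r → cd.VF p}
    (had : Adapted (selpU hc p) (flg h hc p) (LinearMap.range (kapU p)) (m + 1) cc) :
    (∀ x ∈ cd.SelpN p, ∃ (α : Fin r → ZMod 2) (z : V1),
      x = cd.kapN J z + ∑ l, α l • (cc l).1) ∧
    (∀ (α : Fin r → ZMod 2) (z : V1), ∑ l, α l • (cc l).1 = cd.kapN J z → α = 0) ∧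
    (∀ i, 1 ≤ i → i ≤ m → ∀ x ∈ LH cd p i, ∃ (α : Fin r → ZMod 2) (z : V1),
      x = cd.kapN J z + ∑ l, α l • (cc l).1 ∧ ∀ l, α l ≠ 0 → (cc l).1 ∈ LH cd p i) := by
  have hsp : ∀ x ∈ cd.SelpN p, ∃ (α : Fin r → ZMod 2) (z : V1),
      x = cd.kapN J z + ∑ l, α l • (cc l).1 := by
    intro x hx
    obtain ⟨α, hα⟩ := had.span ⟨x, hx.1⟩ hx
    obtain ⟨z, hz⟩ := (mem_range_kapU p _).1 hα
    refine ⟨α, z, ?_⟩
    rw [← hz, ← coe_sum_smul]
    change x = (x - _) + _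
    rw [sub_add_cancel]
  refine ⟨hsp, ?_, ?_⟩
  · intro α z hα
    refine had.indep α ((mem_range_kapU p _).2 ⟨z, ?_⟩)
    rw [coe_sum_smul]
    exact hα
  · intro i hi him x hx
    obtain ⟨α, z, hxe⟩ := hsp x (FN_sub_SelpN p (LH_sub_FN h hc hp hi hx))
    refine ⟨α, z, hxe, fun l hl => ?_⟩
    rw [← mem_flg_succ h hc hp hi]
    refine had.adapt (i + 1) (by omega) (by omega) α ?_ l hl
    have hxU : x ∈ cd.VF p := (LH_sub_FN h hc hp hi hx).1
    have e : ∑ l, α l • cc l = (⟨x, hxU⟩ : cd.VF p) - kapU p z := by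
      apply Subtype.ext
      rw [coe_sum_smul]
      change _ = x - cd.kapN J z
      rw [hxe, add_sub_cancel_left]
    rw [e]
    exact Submodule.sub_mem _ ((mem_flg_succ h hc hp hi ⟨x, hxU⟩).2 hx)
      (range_kap_le h hc hp hi ⟨z, rfl⟩)

/-- `HFacts.basisA`. -/
theorem hf_basisA (h : S.Ok) (hc : cd.Ok) {p : J → cd.Mk} (hp : cd.PVecN p) {j : ℕ}
    (hj : 1 ≤ j) {a b : cd.CodeN J} (ha : a ∈ LH cd p j) (hb : b ∈ cd.SelpN p)
    (hI : cd.Indep2N a b) : Nonempty (cd.BasN (cd.SelpN p) (LH cd p) j a b) := by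
  have := h.fin1
  have haU : a ∈ cd.VF p := (LH_sub_FN h hc hp hj ha).1
  obtain ⟨r, cc, la, lb, β, had, h1, h2, h3, h4, h5⟩ := exists_adapted (selpU hc p)
    (flg h hc p) (LinearMap.range (kapU p)) (k := j + 1) (by omega) (flg_one h hc)
    (fun i hi _ => flg_anti h hc hp i hi) (range_kap_le h hc hp hj)
    (a := ⟨a, haU⟩) (b := ⟨b, hb.1⟩) ((mem_flg_succ h hc hp hj _).2 ha) hb
    (by
      rw [mem_range_kapU]
      rintro ⟨z, hz⟩
      exact one_ne_zero (hI 1 0 z (by rw [one_smul, zero_smul, add_zero]; exact hz)).1)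
    (by
      rw [mem_range_kapU]
      rintro ⟨z, hz⟩
      exact one_ne_zero (hI 0 1 z (by rw [one_smul, zero_smul, zero_add]; exact hz)).2)
    (by
      rw [mem_range_kapU]
      rintro ⟨z, hz⟩
      exact one_ne_zero (hI 1 1 z (by rw [one_smul, one_smul, add_comm]; exact hz)).1)
  obtain ⟨p1, p2, p3⟩ := adapted_props h hc hp had
  refine ⟨⟨r, fun l => (cc l).1, la, lb, h5.symm, by rw [h1], fun l => had.mem l, p1, p2, p3, β,
    ?_, h3, h4⟩⟩
  have := congrArg (fun z : cd.VF p => (z : cd.CodeN J)) h2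
  rw [coe_sum_smul] at this
  exact this

/-- `HFacts.basisT`. -/
theorem hf_basisT (h : S.Ok) (hc : cd.Ok) {p : J → cd.Mk} (hp : cd.PVecN p) {j : ℕ}
    (hj : 1 ≤ j) {a : cd.CodeN J} (ha : a ∈ LH cd p (j + 1)) (ha0 : ∀ z, a ≠ cd.kapN J z) :
    Nonempty (BasT cd (cd.SelpN p) (LH cd p) j a) := by
  have := h.fin1
  have haj : a ∈ LH cd p j := LH_anti h hc hp hj (Nat.le_succ j) ha
  have haU : a ∈ cd.VF p := (LH_sub_FN h hc hp hj haj).1
  have haS : a ∈ cd.SelpN p := FN_sub_SelpN p (LH_sub_FN h hc hp hj haj)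
  have hz2 : ∀ x : ZMod 2, x = 0 ∨ x = 1 := by decide
  by_cases hex : ∃ b ∈ cd.SelpN p, (∀ z, b ≠ cd.kapN J z) ∧ ∀ z, b + a ≠ cd.kapN J z
  · obtain ⟨b, hb, hb1, hb2⟩ := hex
    have hI : cd.Indep2N a b := by
      intro x y z hxy
      rcases hz2 x with rfl | rfl <;> rcases hz2 y with rfl | rfl
      · exact ⟨rfl, rfl⟩
      · rw [one_smul, zero_smul, zero_add] at hxy
        exact absurd hxy (hb1 z)
      · rw [one_smul, zero_smul, add_zero] at hxy
        exact absurd hxy (ha0 z)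
      · rw [one_smul, one_smul, add_comm] at hxy
        exact absurd hxy (hb2 z)
    obtain ⟨B⟩ := hf_basisA h hc hp hj haj hb hI
    exact ⟨⟨B.r, B.c, B.l1, B.c_l1, B.mem, B.span, B.indep, B.adapted⟩⟩
  · push Not at hex
    have hsp : ∀ x ∈ cd.SelpN p, ∃ (α : Fin 1 → ZMod 2) (z : V1),
        x = cd.kapN J z + ∑ l, α l • a := by
      intro x hx
      by_cases hx1 : ∀ z, x ≠ cd.kapN J z
      · obtain ⟨z, hz⟩ := hex x hx hx1
        refine ⟨fun _ => 1, z, ?_⟩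
        rw [Fin.sum_univ_one, one_smul, ← hz, add_assoc]
        have : a + a = 0 := by
          have h11 : (1 + 1 : ZMod 2) = 0 := by decide
          calc a + a = (1 : ZMod 2) • a + (1 : ZMod 2) • a := by rw [one_smul]
            _ = 0 := by rw [← add_smul, h11, zero_smul]
        rw [this, add_zero]
      · push Not at hx1
        obtain ⟨z, hz⟩ := hx1
        refine ⟨fun _ => 0, z, ?_⟩
        rw [Fin.sum_univ_one, zero_smul, add_zero, hz]
    refine ⟨⟨1, fun _ => a, 0, rfl, fun _ => haS, hsp, ?_, ?_⟩⟩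
    · intro α z hα
      rw [Fin.sum_univ_one] at hα
      funext l
      obtain rfl : l = 0 := Subsingleton.elim _ _
      rcases hz2 (α 0) with h0 | h0
      · exact h0
      · rw [h0, one_smul] at hα
        exact absurd hα (ha0 z)
    · intro i hi him x hx
      obtain ⟨α, z, hxe⟩ := hsp x (FN_sub_SelpN p (LH_sub_FN h hc hp hi hx))
      exact ⟨α, z, hxe, fun _ _ => LH_anti h hc hp hi him haj⟩

end Pool.Agent.SmNH
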