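import Pool.Agent.Lib.SmNH.StmtI
import Pool.Agent.Lib.SmNH.Q.Tor
import Pool.Agent.Lib.SmN.G6.LFactsOk

/-!
# HEIGHTS over SMITH-U: finiteness and the bound `LocBound`

For a fixed Selmer cocycle the local points at a bad place `v` form a coset of the group of the
`Q` with `dl chi Q = 0` on `D v`, which only depends on `chi (sg v)` and `chi (phi v)`.
-/

set_option autoImplicit false

open Finset

namespace Pool.Agent.SmNH

open Pool.Agent.SmN

variable {G V V1 Pl M : Type} [Group G] [AddCommGroup V] [DistribMulAction G V]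
  [AddCommGroup V1] [Module (ZMod 2) V1] [AddCommGroup M] [DistribMulAction G M]
  {S : Sys G V V1 Pl} {X : PSys}

/-- The local invariants of the twist. -/
def InvD (S : Sys G V V1 Pl) (chi : G → ZMod 2) (v : Pl) : Set V :=
  {Q | ∀ s ∈ S.D v, dl chi Q s = 0}

theorem InvD_congr {chi chi' : G → ZMod 2} {v : Pl} (hh : ∀ s ∈ S.D v, chi s = chi' s) :
    InvD S chi v = InvD S chi' v := by
  ext Q
  refine forall₂_congr fun s hs => ?_
  rw [dl, dl, tw, tw, hh s hs]

open Classical in
/-- The number of the local invariants as a function of the values of the character at the two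
generators. -/
noncomputable def invN (S : Sys G V V1 Pl) (v : Pl) (a b : ZMod 2) : ℕ :=
  if h : ∃ chi : G → ZMod 2, S.HomG chi ∧ chi (S.sg v) = a ∧ chi (S.phi v) = b then
    Nat.card (InvD S h.choose v)
  else 0

theorem card_invD (h : S.Ok) {chi : G → ZMod 2} (hc : S.HomG chi) (v : Pl) :
    Nat.card (InvD S chi v) = invN S v (chi (S.sg v)) (chi (S.phi v)) := by
  have hex : ∃ chi' : G → ZMod 2, S.HomG chi' ∧ chi' (S.sg v) = chi (S.sg v) ∧
      chi' (S.phi v) = chi (S.phi v) := ⟨chi, hc, rfl, rfl⟩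
  rw [invN, dif_pos hex, InvD_congr (homG_ext_D h hc hex.choose_spec.1
    hex.choose_spec.2.1.symm hex.choose_spec.2.2.symm)]

/-- A bound for the number of the local invariants at `v`, for all quadratic characters. -/
noncomputable def invM (S : Sys G V V1 Pl) (v : Pl) : ℕ :=
  ∑ x : ZMod 2 × ZMod 2, invN S v x.1 x.2

theorem card_invD_le (h : S.Ok) {chi : G → ZMod 2} (hc : S.HomG chi) (v : Pl) :
    Nat.card (InvD S chi v) ≤ invM S v := by
  rw [card_invD h hc]
  exact Finset.single_le_sum (f := fun x : ZMod 2 × ZMod 2 => invN S v x.1 x.2)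
    (fun _ _ => Nat.zero_le _) (Finset.mem_univ (chi (S.sg v), chi (S.phi v)))

theorem finite_InvD (h : S.Ok) {chi : G → ZMod 2} (hc : S.HomG chi) (v : Pl) :
    Finite (InvD S chi v) := h.fin_inv chi hc v

section inj

variable (S)

/-- The injection of the rigid elements into the Selmer cocycles times the local invariants at the
bad places. -/
noncomputable def prMap (chi : G → ZMod 2) (i : ℕ) (y : {y : (G → V) × (Pl → V) // IsPr S chi i y}) :
    {Psi : G → V // S.IsSel chi i Psi} × ((v : (S.goodᶜ : Set Pl)) → InvD S chi v.1) :=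
  (⟨y.1.1, y.2.sel⟩, fun v => ⟨y.1.2 v.1 - (y.2.sel.loc v.1).choose, fun s hs => by
    rw [dl_sub, ← (y.2.sel.loc v.1).choose_spec s hs, ← y.2.loc v.1 v.2 s hs, sub_self]⟩)

theorem prMap_inj (chi : G → ZMod 2) (i : ℕ) : Function.Injective (prMap S chi i) := by
  rintro ⟨⟨P, Q⟩, hy⟩ ⟨⟨P', Q'⟩, hy'⟩ he
  have e1 : P = P' := congrArg (fun z => z.1.1) he
  subst e1
  have e2 : ∀ v, v ∉ S.good → Q v = Q' v := by
    intro v hv
    have := congrArg (fun z => (z.2 ⟨v, hv⟩ : V)) he
    exact sub_left_inj.mp this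
  have e3 : Q = Q' := by
    funext v
    by_cases hv : v ∈ S.good
    · exact (hy.off v hv).trans (hy'.off v hv).symm
    · exact e2 v hv
  subst e3
  rfl

end inj

theorem finite_pr (h : S.Ok) {chi : G → ZMod 2} (hc : S.HomG chi) {i : ℕ}
    (hf : Finite {Psi : G → V // S.IsSel chi i Psi}) :
    Finite {y : (G → V) × (Pl → V) // IsPr S chi i y} := by
  have : Finite (S.goodᶜ : Set Pl) := h.good_fin
  have : ∀ v : (S.goodᶜ : Set Pl), Finite (InvD S chi v.1) := fun v => finite_InvD h hc v.1
  exact Finite.of_injective _ (prMap_inj S chi i)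

theorem card_pr_le (h : S.Ok) {chi : G → ZMod 2} (hc : S.HomG chi) {i : ℕ}
    (hf : Finite {Psi : G → V // S.IsSel chi i Psi}) :
    Nat.card {y : (G → V) × (Pl → V) // IsPr S chi i y} ≤
      (∏ v ∈ h.good_fin.toFinset, invM S v) * Nat.card {Psi : G → V // S.IsSel chi i Psi} := by
  classical
  have : Finite (S.goodᶜ : Set Pl) := h.good_fin
  have := Fintype.ofFinite (S.goodᶜ : Set Pl)
  have : ∀ v : (S.goodᶜ : Set Pl), Finite (InvD S chi v.1) := fun v => finite_InvD h hc v.1
  refine (Nat.card_le_card_of_injective _ (prMap_inj S chi i)).trans ?_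
  rw [Nat.card_prod, mul_comm, Nat.card_pi]
  refine Nat.mul_le_mul_right _ ?_
  refine (Finset.prod_le_prod (fun _ _ => Nat.zero_le _)
    fun v _ => card_invD_le h hc v.1).trans (le_of_eq ?_)
  exact (Finset.prod_subtype h.good_fin.toFinset (fun v => h.good_fin.mem_toFinset)
    (fun v => invM S v)).symm

variable {cd : CData S X}

theorem finite_sel (h : S.Ok) (hc : cd.Ok) {J : Type} [Fintype J] {p : J → cd.Mk}
    (hp : cd.PVecN p) (i : ℕ) : Finite {Psi : G → V // S.IsSel (cd.chiN p) i Psi} :=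
  Pool.Agent.Sm.Tower.finite_Z
    (CData.twN_ok (U := cd.VF p) h hc (fun _ => Iff.rfl) hp) i

/-- `HFacts.fin`. -/
theorem hf_fin (h : S.Ok) (hc : cd.Ok) {J : Type} [Fintype J] {p : J → cd.Mk}
    (hp : cd.PVecN p) (i : ℕ) :
    Finite {y : (G → V) × (Pl → V) // IsPr S (cd.chiN p) i y} :=
  finite_pr h (CData.chiN_hom h hc p) (finite_sel h hc hp i)

/-- The number of the rigid elements is bounded by the number of the Selmer cocycles. -/
theorem locBound (h : S.Ok) (hc : cd.Ok) : LocBound cd :=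
  ⟨∏ v ∈ h.good_fin.toFinset, invM S v, fun _ _ p hp i =>
    card_pr_le h (CData.chiN_hom h hc p) (finite_sel h hc hp i)⟩

end Pool.Agent.SmNH
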