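import Pool.Agent.Lib.SmNH.HF.Fin

/-!
# HEIGHTS over SMITH-U: many multiples

`hf_many`: one element `y` of level `j` with `q j y = 0` whose top is not the top of a torsion element
gives the `2 ^ (j - 1) (#V1) ^ j` elements `m y + tor z`, `m` odd, `2 ^ j z = 0`.
-/

set_option autoImplicit false

open Finset

namespace Pool.Agent.SmNH

open Pool.Agent.SmN

variable {G V V1 Pl M : Type} [Group G] [AddCommGroup V] [DistribMulAction G V]
  [AddCommGroup V1] [Module (ZMod 2) V1] [AddCommGroup M] [DistribMulAction G M]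
  {S : Sys G V V1 Pl} {X : PSys}

/-! ### The torsion of `V` -/

/-- `V[2 ^ k]`. -/
def torV (V : Type) [AddCommGroup V] (k : ℕ) : AddSubgroup V where
  carrier := {z | (2 : ℕ) ^ k • z = 0}
  zero_mem' := smul_zero _
  add_mem' := by
    intro a b ha hb
    change (2 : ℕ) ^ k • (a + b) = 0
    rw [smul_add, show (2 : ℕ) ^ k • a = 0 from ha, show (2 : ℕ) ^ k • b = 0 from hb, add_zero]
  neg_mem' := by
    intro a ha
    change (2 : ℕ) ^ k • (-a) = 0
    rw [smul_neg, show (2 : ℕ) ^ k • a = 0 from ha, neg_zero]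

theorem mem_torV {k : ℕ} {z : V} : z ∈ torV V k ↔ (2 : ℕ) ^ k • z = 0 := Iff.rfl

/-- `#V[2 ^ k] = (#V1) ^ k`. -/
theorem card_torV (h : S.Ok) (k : ℕ) : Nat.card (torV V k) = Nat.card V1 ^ k := by
  induction k with
  | zero =>
    have hs : Subsingleton (torV V 0) := by
      refine ⟨fun a b => Subtype.ext ?_⟩
      have ha := a.2
      have hb := b.2
      rw [mem_torV, pow_zero, one_smul] at ha hb
      rw [ha, hb]
    rw [pow_zero, Nat.card_of_subsingleton (0 : torV V 0)]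
  | succ k ih =>
    let g : torV V (k + 1) →+ torV V k :=
      { toFun := fun z => ⟨(2 : ℕ) • z.1, by
          rw [mem_torV, ← mul_smul, ← pow_succ]
          exact z.2⟩
        map_zero' := Subtype.ext (smul_zero _)
        map_add' := fun a b => Subtype.ext (smul_add _ _ _) }
    have hg : Function.Surjective g := by
      rintro ⟨z, hz⟩
      obtain ⟨w, hw⟩ := h.half z
      refine ⟨⟨w, ?_⟩, Subtype.ext hw⟩
      rw [mem_torV, pow_succ, mul_smul, hw]
      exact hz
    have e1 : Nat.card g.ker = Nat.card V1 := by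
      refine (Nat.card_congr (Equiv.ofBijective (fun w : V1 =>
        (⟨⟨S.iota w, ?_⟩, ?_⟩ : g.ker)) ⟨?_, ?_⟩)).symm
      · rw [mem_torV, pow_succ, mul_smul, Sys.two_iota, smul_zero]
      · rw [AddMonoidHom.mem_ker]
        exact Subtype.ext (Sys.two_iota S w)
      · intro w w' hw
        exact h.iota_inj (congrArg (fun x => x.1.1) hw)
      · rintro ⟨⟨Q, hQ⟩, hQ2⟩
        obtain ⟨w, hw⟩ := h.iota_range Q (congrArg Subtype.val (AddMonoidHom.mem_ker.mp hQ2))
        exact ⟨w, Subtype.ext (Subtype.ext hw)⟩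
    rw [← Sys.card_hom g, e1, AddMonoidHom.range_eq_top.mpr hg, AddSubgroup.card_top, ih, pow_succ']

/-- If `G` has no fixed point on `V1`, a quadratic twist of `V` has no fixed point. -/
theorem eq_zero_of_dl (h : S.Ok) (hn : ∀ w : V1, (∀ s, S.ac s w = w) → w = 0) {chi : G → ZMod 2}
    {Q : V} (hQ : ∀ s, dl chi Q s = 0) : Q = 0 := by
  have key : ∀ k : ℕ, ∀ Q : V, (2 : ℕ) ^ k • Q = 0 → (∀ s, dl chi Q s = 0) → Q = 0 := by
    intro k
    induction k with
    | zero =>
      intro Q h0 _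
      rwa [pow_zero, one_smul] at h0
    | succ k ih =>
      intro Q h0 hQ
      have h2 : (2 : ℕ) • Q = 0 := by
        refine ih _ ?_ fun s => by rw [dl_nsmul, hQ s, smul_zero]
        rw [← mul_smul, ← pow_succ]
        exact h0
      obtain ⟨w, rfl⟩ := h.iota_range Q h2
      have hw : w = 0 := hn w fun s => by
        have := hQ s
        rw [Sys.dl_iota h, Sys.iota_eq_zero h, sub_eq_zero] at this
        exact this
      rw [hw, map_zero]
  obtain ⟨k, hk⟩ := h.tors Q
  exact key k Q hk hQ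

/-! ### The multiples of one element -/

section one

variable {H : HData V M Pl} {chi : G → ZMod 2} {j : ℕ} {y : (G → V) × (Pl → V)}

/-- Two odd multiples of `y` which differ by a torsion element are equal. -/
theorem mul_inj (h : S.Ok) (hn : ∀ w : V1, (∀ s, S.ac s w = w) → w = 0) (hj : 1 ≤ j)
    (hlev : ∀ s, (2 : ℕ) ^ j • y.1 s = 0)
    (htop : ¬ ∃ z : V, (2 : ℕ) ^ 2 • z = 0 ∧ ∀ s, (2 : ℕ) ^ (j - 1) • y.1 s = dl chi z s)
    {a b : ℕ} (ha : a < 2 ^ (j - 1)) (hab : b < a) {z : V}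
    (he : ∀ s, (2 * (a - b)) • y.1 s = dl chi z s) : False := by
  obtain ⟨t, u, hu, ht⟩ := Nat.exists_eq_two_pow_mul_odd (n := a - b) (by omega)
  obtain ⟨u', rfl⟩ := hu
  have h2t : 2 ^ t < 2 ^ (j - 1) := by
    have h1 : 2 ^ t * 1 ≤ 2 ^ t * (2 * u' + 1) := Nat.mul_le_mul_left _ (by omega)
    omega
  have htj : t < j - 1 := (Nat.pow_lt_pow_iff_right (by norm_num)).1 h2t
  obtain ⟨r, hr⟩ := Nat.exists_eq_add_of_lt htj
  -- `j - 1 = t + r + 1`
  have e1 : ∀ s, (2 : ℕ) ^ (j - 1) • y.1 s = dl chi ((2 : ℕ) ^ r • z) s := by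
    intro s
    rw [dl_nsmul, ← he s, ht, ← mul_smul]
    have e2 : 2 ^ r * (2 * (2 ^ t * (2 * u' + 1))) = u' * 2 ^ j + 2 ^ (j - 1) := by
      have e3 : (2 : ℕ) ^ (j - 1) = 2 ^ t * 2 ^ r * 2 := by rw [hr, pow_succ, pow_add]
      have e4 : (2 : ℕ) ^ j = 2 ^ (j - 1) * 2 := by
        rw [← pow_succ, Nat.sub_add_cancel hj]
      rw [e4, e3]
      ring
    rw [e2, add_smul, mul_smul, hlev s, smul_zero, zero_add]
  refine htop ⟨(2 : ℕ) ^ r • z, ?_, e1⟩
  have e5 : (2 : ℕ) • ((2 : ℕ) ^ r • z) = 0 := by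
    refine eq_zero_of_dl (chi := chi) h hn fun s => ?_
    rw [dl_nsmul, ← e1 s, ← mul_smul, ← pow_succ', Nat.sub_add_cancel hj, hlev s]
  rw [pow_two, mul_smul, e5, smul_zero]

/-- The elements `m y + tor z`, `m` odd. -/
theorem isZ_mul (h : S.Ok) (hH : HOk S H) (hchi : S.HomG chi) (hj : 1 ≤ j)
    (hy : IsZ S H chi j y) (k : ℕ) {z : V} (hz : (2 : ℕ) ^ j • z = 0) :
    IsZ S H chi j ((2 * k + 1) • y + tor S chi z) where
  pr := (hy.pr.nsmul h _).add h (isPr_tor h hchi hz)
  top := by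
    rintro ⟨x, hx, hxe⟩
    refine hy.top ⟨x - (2 : ℕ) ^ (j - 1) • z, ?_, fun s => ?_⟩
    · rw [smul_sub, hx, ← mul_smul, ← pow_add, zero_sub, neg_eq_zero]
      have : 2 + (j - 1) = 1 + j := by omega
      rw [this, pow_add, mul_smul, hz, smul_zero]
    · have h1 := hxe s
      rw [Prod.fst_add, Prod.smul_fst, Pi.add_apply, Pi.smul_apply, tor_fst, smul_add,
        ← dl_nsmul] at h1
      rw [dl_sub, ← h1, add_sub_cancel_right, ← mul_smul]
      have e2 : 2 ^ (j - 1) * (2 * k + 1) = k * 2 ^ j + 2 ^ (j - 1) := by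
        have e4 : (2 : ℕ) ^ j = 2 ^ (j - 1) * 2 := by rw [← pow_succ, Nat.sub_add_cancel hj]
        rw [e4]
        ring
      rw [e2, add_smul, mul_smul, hy.pr.sel.lev s, smul_zero, zero_add]
  q0 := by
    rw [q_add_tor h hH hchi (hy.pr.nsmul h _) hz, q_nsmul h hH hchi hy.pr, hy.q0, smul_zero]

/-- Many multiples. -/
theorem many_of (h : S.Ok) (hH : HOk S H) (hn : ∀ w : V1, (∀ s, S.ac s w = w) → w = 0)
    (hchi : S.HomG chi) (hj : 1 ≤ j)
    (hf : Finite {y : (G → V) × (Pl → V) // IsPr S chi j y})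
    (hex : ∃ y, IsZ S H chi j y) :
    2 ^ (j - 1) * Nat.card V1 ^ j ≤ nH S H chi j := by
  obtain ⟨y, hy⟩ := hex
  have hfZ : Finite {y : (G → V) × (Pl → V) // IsZ S H chi j y} :=
    Finite.of_injective (fun x => (⟨x.1, x.2.pr⟩ : {y // IsPr S chi j y}))
      fun a b hab => Subtype.ext (congrArg (fun z => z.1) hab)
  let f : Fin (2 ^ (j - 1)) × torV V j → {y : (G → V) × (Pl → V) // IsZ S H chi j y} :=
    fun x => ⟨(2 * x.1.1 + 1) • y + tor S chi x.2.1, isZ_mul h hH hchi hj hy x.1.1 x.2.2⟩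
  have hfi : Function.Injective f := by
    have key : ∀ (a b : Fin (2 ^ (j - 1))) (z z' : torV V j), b.1 < a.1 →
        (2 * a.1 + 1) • y + tor S chi z.1 = (2 * b.1 + 1) • y + tor S chi z'.1 → False := by
      intro a b z z' hab he
      refine mul_inj (z := z'.1 - z.1) h hn hj hy.pr.sel.lev hy.top a.2 hab fun s => ?_
      have h1 := congrFun (congrArg Prod.fst he) s
      rw [Prod.fst_add, Prod.fst_add, Prod.smul_fst, Prod.smul_fst, Pi.add_apply, Pi.add_apply,
        Pi.smul_apply, Pi.smul_apply, tor_fst, tor_fst] at h1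
      have e1 : 2 * a.1 + 1 = 2 * (a.1 - b.1) + (2 * b.1 + 1) := by omega
      rw [e1, add_smul] at h1
      rw [dl_sub]
      have e2 : ∀ p q r t : V, p + q + r = q + t → p = t - r := by
        intro p q r t hh
        rw [eq_sub_iff_add_eq]
        have : q + (p + r) = q + t := by rw [← hh]; abel
        exact add_left_cancel this
      exact e2 _ _ _ _ h1
    rintro ⟨a, z⟩ ⟨b, z'⟩ he
    have he' : (2 * a.1 + 1) • y + tor S chi z.1 = (2 * b.1 + 1) • y + tor S chi z'.1 :=
      congrArg Subtype.val he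
    rcases lt_trichotomy a.1 b.1 with hlt | heq | hgt
    · exact (key b a z' z hlt he'.symm).elim
    · obtain rfl : a = b := Fin.ext heq
      have h2 : tor S chi z.1 = tor S chi z'.1 := add_left_cancel he'
      have h3 : z.1 - z'.1 = 0 := by
        refine eq_zero_of_dl (chi := chi) h hn fun s => ?_
        have := congrFun (congrArg Prod.fst h2) s
        rw [tor_fst, tor_fst] at this
        rw [dl_sub, this, sub_self]
      exact Prod.ext rfl (Subtype.ext (sub_eq_zero.1 h3))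
    · exact (key a b z z' hgt he').elim
  have := Nat.card_le_card_of_injective f hfi
  rw [Nat.card_prod, Nat.card_fin, card_torV h] at this
  exact this

end one

variable {cd : CData S X} {H : HData V M Pl}

/-- `HFacts.many`. -/
theorem hf_many (h : S.Ok) (hH : HOk S H) (hc : cd.Ok) {J : Type} [Fintype J] {p : J → cd.Mk}
    (hp : cd.PVecN p) {j : ℕ} (hj : 1 ≤ j) (hex : ∃ y, IsZ S H (cd.chiN p) j y) :
    2 ^ (j - 1) * Nat.card V1 ^ j ≤ nH S H (cd.chiN p) j :=
  many_of h hH hc.nofix (CData.chiN_hom h hc p) hj (hf_fin h hc hp j) hex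

end Pool.Agent.SmNH
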