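import Pool.Agent.Lib.SmNH.G.Recur
import Pool.Agent.Lib.SmNH.G.ExW
import Pool.Agent.Lib.SmNH.G.CountOk
import Pool.Agent.Lib.SmNH.HF.Fin
import Pool.Agent.Lib.SmNH.HF.Many
import Pool.Agent.Lib.SmNH.HF.Bas
import Pool.Agent.Lib.SmN.I.CodeN

/-!
# HEIGHTS over SMITH-U, module HF/Of: the facts on one vector of marked primes

`hfacts_of`: finiteness, the criterion for the flag, the recursion for the number of the elements of
height zero, the vanishing of `NTH` if there is no code `w`, adapted bases, many multiples.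
-/

set_option autoImplicit false

namespace Pool.Agent.SmNH

open Pool.Agent.SmN Pool.Agent.SmN.Sys Pool.Agent.SmN.CData

namespace HFOf

variable {G V V1 Pl M : Type} [Group G] [AddCommGroup V] [DistribMulAction G V]
  [AddCommGroup V1] [Module (ZMod 2) V1] [AddCommGroup M] [DistribMulAction G M]
  {S : Sys G V V1 Pl} {H : HData V M Pl} {X : PSys} {cd : CData S X} {J : Type} [Fintype J]
  {p : J → cd.Mk} {i : ℕ} {a b : cd.CodeN J} {y : (G → V) × (Pl → V)}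

theorem finite_rel (h : S.Ok) (hc : cd.Ok) (hg : S.good = Set.range cd.pl) (hp : cd.PVecN p) :
    Finite {b : G → V1 // IsRel S (cd.chiN p) b} := by
  have := h.fin1
  refine Finite.of_surjective (fun c : {c : cd.CodeN J // c ∈ cd.SelpN p} =>
    (⟨cd.homN p c.1, (ExW.isRel_homN_iff h hc hg c.2.1).2 c.2⟩ :
      {b : G → V1 // IsRel S (cd.chiN p) b})) ?_
  rintro ⟨b, hb⟩
  obtain ⟨c, hcs, rfl⟩ := ExW.isRel_surj h hc hg hp hb
  exact ⟨⟨c, hcs⟩, rfl⟩

open Classical in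
/-- A sum over the relaxed Selmer group in codes. -/
theorem sum_rel [Fintype (cd.CodeN J)] {R : Type*} [AddCommMonoid R] (h : S.Ok) (hc : cd.Ok)
    (hg : S.good = Set.range cd.pl) (hp : cd.PVecN p) (f : (G → V1) → R) :
    ∑ᶠ b : {b : G → V1 // IsRel S (cd.chiN p) b}, f b.1 =
      ∑ b : cd.CodeN J, if b ∈ cd.SelpN p then f (cd.homN p b) else 0 := by
  let e : {c : cd.CodeN J // c ∈ cd.SelpN p} ≃ {b : G → V1 // IsRel S (cd.chiN p) b} :=
    Equiv.ofBijective (fun c => ⟨cd.homN p c.1, (ExW.isRel_homN_iff h hc hg c.2.1).2 c.2⟩)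
      ⟨fun c c' hcc => Subtype.ext (homN_inj hc hp c.2.1 c'.2.1 (congrArg Subtype.val hcc)), by
        rintro ⟨b, hb⟩
        obtain ⟨c, hcs, rfl⟩ := ExW.isRel_surj h hc hg hp hb
        exact ⟨⟨c, hcs⟩, rfl⟩⟩
  rw [← finsum_comp_equiv e (f := fun b => f b.1)]
  exact Rec.fsub Finset.univ (fun x _ => Finset.mem_univ x) (fun c => f (cd.homN p c))

/-- The code of the top of a rigid Selmer element. -/
theorem exists_top (h : S.Ok) (hc : cd.Ok) (hp : cd.PVecN p) (hi : 1 ≤ i)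
    (hy : IsPr S (cd.chiN p) i y) : ∃ a, AbvH cd p i a y := by
  obtain ⟨j, rfl⟩ := Nat.exists_eq_add_of_le' hi
  have h1 := isSel_top j hy.sel
  obtain ⟨a, hv, ha⟩ := homN_surj h hc hp (isSel_un h h1)
  refine ⟨a, hy, fun s => ?_, hv⟩
  rw [ha, Nat.add_sub_cancel]
  refine (iota_un h ?_).symm
  have h2 := h1.lev s
  rwa [pow_one] at h2

theorem top_unique (h : S.Ok) (hc : cd.Ok) (hp : cd.PVecN p) {a a' : cd.CodeN J}
    (ha : AbvH cd p i a y) (ha' : AbvH cd p i a' y) : a = a' :=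
  homN_inj hc hp ha.val ha'.val (funext fun s => h.iota_inj ((ha.2 s).symm.trans (ha'.2 s)))

theorem mem_LH_of (h : S.Ok) (hc : cd.Ok) (hp : cd.PVecN p) (hi : 1 ≤ i)
    (ha : AbvH cd p i a y) : a ∈ LH cd p i :=
  (mem_LflN_iff (U := cd.VF p) h hc (fun _ => Iff.rfl) hp hi ⟨a, ha.val⟩).2
    ⟨y.1, ha.1.sel, ha.2⟩

theorem topK_iff (h : S.Ok) (hc : cd.Ok) (hp : cd.PVecN p) (ha : AbvH cd p i a y) :
    Rec.TopK (cd.chiN p) i y ↔ ∃ z, a = cd.kapN J z := by
  constructor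
  · rintro ⟨z, -, hz'⟩
    have h2 : (2 : ℕ) • z = 0 := eq_zero_of_dl h hc.nofix (chi := cd.chiN p) fun s => by
      rw [dl_nsmul, ← hz' s, ha.2 s, two_iota]
    obtain ⟨w, rfl⟩ := h.iota_range z h2
    refine ⟨w, homN_inj hc hp ha.val (valid_kap p w) (funext fun s => h.iota_inj ?_)⟩
    rw [homN_kap hc, ← dl_iota h (cd.chiN p), ← hz' s, ha.2 s]
  · rintro ⟨w, rfl⟩
    refine ⟨S.iota w, ?_, fun s => ?_⟩
    · rw [pow_two, mul_smul, two_iota, smul_zero]
    · rw [ha.2 s, homN_kap hc, ← dl_iota h (cd.chiN p)]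

theorem v1_two (w : V1) : w + w = 0 := by
  rw [← two_smul (ZMod 2), show (2 : ZMod 2) = 0 from rfl, zero_smul]

omit [Fintype J] in
/-- There are few codes which are dependent on a given code. -/
theorem card_dep (h : S.Ok) (ha : ∀ w, a ≠ cd.kapN J w) :
    Nat.card {b : cd.CodeN J // ¬ cd.Indep2N a b} ≤ 2 * Nat.card V1 := by
  have := h.fin1
  have hab : ∀ b : cd.CodeN J, ¬ cd.Indep2N a b →
      (∃ w, b = cd.kapN J w) ∨ ∃ w, b = a + cd.kapN J w := by
    intro b hb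
    rw [CData.Indep2N] at hb
    push Not at hb
    obtain ⟨x, y, w, hw, hxy⟩ := hb
    have hz : ∀ x : ZMod 2, x = 0 ∨ x = 1 := by decide
    rcases hz x with rfl | rfl <;> rcases hz y with rfl | rfl
    · exact absurd rfl (hxy rfl)
    · rw [one_smul, zero_smul, zero_add] at hw
      exact Or.inl ⟨w, hw⟩
    · rw [one_smul, zero_smul, add_zero] at hw
      exact absurd hw (ha w)
    · rw [one_smul, one_smul] at hw
      refine Or.inr ⟨w, ?_⟩
      have e : a + a = 0 :=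
        Prod.ext (funext fun _ => CharTwo.add_self_eq_zero _) (funext fun _ => v1_two _)
      rw [← hw, ← add_assoc, e, zero_add]
  have h1 : Nat.card (V1 ⊕ V1) = 2 * Nat.card V1 := by
    rw [Nat.card_sum, two_mul]
  rw [← h1]
  have hinj : ∃ f : {b : cd.CodeN J // ¬ cd.Indep2N a b} → V1 ⊕ V1, Function.Injective f := by
    have hch : ∀ b : {b : cd.CodeN J // ¬ cd.Indep2N a b}, ∃ x : V1 ⊕ V1,
        b.1 = Sum.elim (fun w => cd.kapN J w) (fun w => a + cd.kapN J w) x := by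
      rintro ⟨b, hb⟩
      rcases hab b hb with ⟨w, hw⟩ | ⟨w, hw⟩
      · exact ⟨Sum.inl w, hw⟩
      · exact ⟨Sum.inr w, hw⟩
    choose f hf using hch
    exact ⟨f, fun b b' e => Subtype.ext (by rw [hf b, hf b', e])⟩
  obtain ⟨f, hf⟩ := hinj
  exact Nat.card_le_card_of_injective f hf

theorem sgn_cast (x : ZMod 2) : ((sgn x : ℤ) : ℝ) = (-1 : ℝ) ^ x.val := by
  rcases (by decide : ∀ x : ZMod 2, x = 0 ∨ x = 1) x with rfl | rfl
  · simp [sgn]
  · have : (1 : ZMod 2).val = 1 := rfl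
    rw [this, pow_one, sgn, if_neg one_ne_zero]
    norm_num

theorem sgn_abs (x : ZMod 2) : (-1 : ℝ) ^ x.val ≤ 1 := by
  rcases (by decide : ∀ x : ZMod 2, x = 0 ∨ x = 1) x with rfl | rfl
  · simp
  · have : (1 : ZMod 2).val = 1 := rfl
    rw [this, pow_one]
    norm_num

open Classical in
/-- The part of the recursion with the rigid Cassels-Tate pairing. -/
theorem part_A (h : S.Ok) (hc : cd.Ok) (hg : S.good = Set.range cd.pl) (hp : cd.PVecN p)
    (hi : 1 ≤ i) :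
    ((∑ᶠ y : {y : (G → V) × (Pl → V) // IsZ S H (cd.chiN p) i y},
      ∑ᶠ b : {b : G → V1 // IsRel S (cd.chiN p) b}, sgn (CTr S (cd.chiN p) y.1 b.1) : ℤ) : ℝ) ≤
      2 * Nat.card V1 * nH S H (cd.chiN p) i +
      ∑ᶠ ab : cd.CodeN J × cd.CodeN J,
        if ab.1 ∈ LH cd p i ∧ ab.2 ∈ cd.SelpN p ∧ cd.Indep2N ab.1 ab.2 then
          NAH cd H p i ab.1 ab.2 else 0 := by
  have := h.fin1
  have : Fintype (cd.CodeN J) := Fintype.ofFinite _
  have hfin : {y : (G → V) × (Pl → V) | IsPr S (cd.chiN p) i y}.Finite := hf_fin h hc hp i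
  set F := hfin.toFinset with hF
  have memF : ∀ y, y ∈ F ↔ IsPr S (cd.chiN p) i y := fun y => by
    rw [hF, Set.Finite.mem_toFinset]; rfl
  have hE : (∑ᶠ ab : cd.CodeN J × cd.CodeN J,
      if ab.1 ∈ LH cd p i ∧ ab.2 ∈ cd.SelpN p ∧ cd.Indep2N ab.1 ab.2 then
        NAH cd H p i ab.1 ab.2 else 0) = ∑ a : cd.CodeN J, ∑ b : cd.CodeN J,
      if a ∈ LH cd p i ∧ b ∈ cd.SelpN p ∧ cd.Indep2N a b then NAH cd H p i a b else 0 := by
    rw [finsum_eq_sum_of_fintype, Fintype.sum_prod_type]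
  rw [hE]
  -- the sign
  let sg : (G → V) × (Pl → V) → cd.CodeN J → ℝ := fun y b =>
    (-1 : ℝ) ^ (CTr S (cd.chiN p) y (cd.homN p b)).val
  have h1 : ((∑ᶠ y : {y : (G → V) × (Pl → V) // IsZ S H (cd.chiN p) i y},
      ∑ᶠ b : {b : G → V1 // IsRel S (cd.chiN p) b}, sgn (CTr S (cd.chiN p) y.1 b.1) : ℤ) : ℝ) =
      ∑ y ∈ F, if IsZ S H (cd.chiN p) i y then
        ∑ b : cd.CodeN J, (if b ∈ cd.SelpN p then sg y b else 0) else 0 := by
    rw [Rec.fsub F (fun y hy => (memF y).2 hy.pr) (fun y =>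
      ∑ᶠ b : {b : G → V1 // IsRel S (cd.chiN p) b}, sgn (CTr S (cd.chiN p) y b.1)), Int.cast_sum]
    refine Finset.sum_congr rfl fun y _ => ?_
    rw [sum_rel h hc hg hp (fun b => sgn (CTr S (cd.chiN p) y b))]
    push_cast
    refine if_congr Iff.rfl (Finset.sum_congr rfl fun b _ => ?_) rfl
    rw [sgn_cast]
  have h2 : ∑ a : cd.CodeN J, ∑ b : cd.CodeN J,
        (if a ∈ LH cd p i ∧ b ∈ cd.SelpN p ∧ cd.Indep2N a b then NAH cd H p i a b else 0) =
      ∑ y ∈ F, ∑ b : cd.CodeN J, ∑ a : cd.CodeN J,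
        (if a ∈ LH cd p i ∧ b ∈ cd.SelpN p ∧ cd.Indep2N a b then
          (if AbvH cd p i a y ∧ q S H (cd.chiN p) i y = 0 then sg y b else 0) else 0) := by
    rw [Finset.sum_comm]
    rw [Finset.sum_comm (s := F)]
    refine Finset.sum_congr rfl fun b _ => ?_
    rw [Finset.sum_comm (s := F)]
    refine Finset.sum_congr rfl fun a _ => ?_
    by_cases hC : a ∈ LH cd p i ∧ b ∈ cd.SelpN p ∧ cd.Indep2N a b
    · rw [if_pos hC, NAH, Rec.fsub F (fun y hy => (memF y).2 hy.1.1) (fun y => sg y b)]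
      exact Finset.sum_congr rfl fun y _ => (if_pos hC).symm
    · rw [if_neg hC]
      exact (Finset.sum_eq_zero fun y _ => if_neg hC).symm
  have h3 : (2 * Nat.card V1 * nH S H (cd.chiN p) i : ℝ) =
      ∑ y ∈ F, if IsZ S H (cd.chiN p) i y then (2 * Nat.card V1 : ℝ) else 0 := by
    rw [nH, Rec.csub F (fun y hy => (memF y).2 hy.pr), ← Finset.sum_filter, Finset.sum_const,
      nsmul_eq_mul, mul_comm]
  rw [h1, h2, h3, ← Finset.sum_add_distrib]
  refine Finset.sum_le_sum fun y hy => ?_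
  have hpr := (memF y).1 hy
  obtain ⟨a0, ha0⟩ := exists_top h hc hp hi hpr
  have hL := mem_LH_of h hc hp hi ha0
  -- the sum over a
  have h4 : ∀ b : cd.CodeN J, (∑ a : cd.CodeN J,
      (if a ∈ LH cd p i ∧ b ∈ cd.SelpN p ∧ cd.Indep2N a b then
        (if AbvH cd p i a y ∧ q S H (cd.chiN p) i y = 0 then sg y b else 0) else 0)) =
      if b ∈ cd.SelpN p ∧ cd.Indep2N a0 b ∧ q S H (cd.chiN p) i y = 0 then sg y b else 0 := by
    intro b
    rw [Finset.sum_eq_single a0]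
    · by_cases hC : b ∈ cd.SelpN p ∧ cd.Indep2N a0 b
      · by_cases hq : q S H (cd.chiN p) i y = 0
        · rw [if_pos ⟨hL, hC.1, hC.2⟩, if_pos ⟨ha0, hq⟩, if_pos ⟨hC.1, hC.2, hq⟩]
        · rw [if_pos ⟨hL, hC.1, hC.2⟩, if_neg fun h5 => hq h5.2, if_neg fun h5 => hq h5.2.2]
      · rw [if_neg fun h5 => hC h5.2, if_neg fun h5 => hC ⟨h5.1, h5.2.1⟩]
    · intro a _ hne
      have h5 : ¬ (AbvH cd p i a y ∧ q S H (cd.chiN p) i y = 0) := fun h6 =>
        hne (top_unique h hc hp h6.1 ha0)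
      rw [if_neg h5, ite_self]
    · exact fun h5 => absurd (Finset.mem_univ a0) h5
  rw [Finset.sum_congr rfl fun b _ => h4 b]
  by_cases hZ : IsZ S H (cd.chiN p) i y
  · rw [if_pos hZ, if_pos hZ]
    have hk : ∀ w, a0 ≠ cd.kapN J w := fun w hw =>
      ((Rec.isZ_iff y).1 hZ).2.1 ((topK_iff h hc hp ha0).2 ⟨w, hw⟩)
    have h5 : (Nat.card {b : cd.CodeN J // ¬ cd.Indep2N a0 b} : ℝ) =
        ∑ b : cd.CodeN J, if ¬ cd.Indep2N a0 b then (1 : ℝ) else 0 := by
      rw [Rec.csub Finset.univ fun x _ => Finset.mem_univ x, Finset.card_filter]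
      push_cast
      rfl
    have h6 : (Nat.card {b : cd.CodeN J // ¬ cd.Indep2N a0 b} : ℝ) ≤ 2 * Nat.card V1 := by
      exact_mod_cast card_dep h hk
    refine le_trans ?_ (add_le_add_left h6 _)
    rw [h5, ← Finset.sum_add_distrib]
    refine Finset.sum_le_sum fun b _ => ?_
    by_cases hb : b ∈ cd.SelpN p
    · by_cases hI : cd.Indep2N a0 b
      · rw [if_pos hb, if_neg (not_not.2 hI), if_pos ⟨hb, hI, hZ.q0⟩, zero_add]
      · rw [if_pos hb, if_pos hI, if_neg fun h7 => hI h7.2.1, add_zero]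
        exact sgn_abs _
    · have e1 : ¬ (b ∈ cd.SelpN p ∧ cd.Indep2N a0 b ∧ q S H (cd.chiN p) i y = 0) :=
        fun h7 => hb h7.1
      rw [if_neg hb, if_neg e1, add_zero]
      split_ifs <;> norm_num
  · rw [if_neg hZ, if_neg hZ, zero_add]
    refine Finset.sum_nonneg fun b _ => ?_
    rw [if_neg]
    rintro ⟨_, hI, hq⟩
    apply hZ
    rw [Rec.isZ_iff]
    refine ⟨hpr, fun hT => ?_, hq⟩
    obtain ⟨w, hw⟩ := (topK_iff h hc hp ha0).1 hT
    have := (hI 1 0 w (by rw [one_smul, zero_smul, add_zero, hw])).1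
    exact one_ne_zero this

open Classical in
/-- The part of the recursion with the signs of the height. -/
theorem part_T (h : S.Ok) (hc : cd.Ok) (hp : cd.PVecN p) (hi : 1 ≤ i) :
    ((∑ᶠ y : {y : (G → V) × (Pl → V) // IsPr S (cd.chiN p) (i + 1) y ∧
          ¬ Rec.TopK (cd.chiN p) (i + 1) y ∧ q S H (cd.chiN p) i ((2 : ℕ) • y) = 0},
        (if q S H (cd.chiN p) (i + 1) y.1 = 0 then (1 : ℤ) else -1) : ℤ) : ℝ) =
      ∑ᶠ a : cd.CodeN J,
        if a ∈ LH cd p (i + 1) ∧ (∀ z, a ≠ cd.kapN J z) then NTH cd H p i a else 0 := by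
  have := h.fin1
  have : Fintype (cd.CodeN J) := Fintype.ofFinite _
  have hfin : {y : (G → V) × (Pl → V) | IsPr S (cd.chiN p) (i + 1) y}.Finite :=
    hf_fin h hc hp (i + 1)
  set F := hfin.toFinset with hF
  have memF : ∀ y, y ∈ F ↔ IsPr S (cd.chiN p) (i + 1) y := fun y => by
    rw [hF, Set.Finite.mem_toFinset]; rfl
  have hi' : 1 ≤ i + 1 := by omega
  have hE : (∑ᶠ a : cd.CodeN J,
      if a ∈ LH cd p (i + 1) ∧ (∀ z, a ≠ cd.kapN J z) then NTH cd H p i a else 0) =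
      ∑ a : cd.CodeN J,
        if a ∈ LH cd p (i + 1) ∧ (∀ v, a ≠ cd.kapN J v) then NTH cd H p i a else 0 :=
    finsum_eq_sum_of_fintype _
  rw [hE]
  have h2 : (∑ a : cd.CodeN J,
        if a ∈ LH cd p (i + 1) ∧ (∀ v, a ≠ cd.kapN J v) then NTH cd H p i a else 0) =
      ∑ y ∈ F, ∑ a : cd.CodeN J, if a ∈ LH cd p (i + 1) ∧ (∀ v, a ≠ cd.kapN J v) then
        (if AbvH cd p (i + 1) a y ∧ q S H (cd.chiN p) i ((2 : ℕ) • y) = 0 then
          (if q S H (cd.chiN p) (i + 1) y = 0 then (1 : ℝ) else -1) else 0) else 0 := by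
    rw [Finset.sum_comm (s := F)]
    refine Finset.sum_congr rfl fun a _ => ?_
    by_cases hC : a ∈ LH cd p (i + 1) ∧ (∀ v, a ≠ cd.kapN J v)
    · rw [if_pos hC, NTH, Rec.fsub F (fun y hy => (memF y).2 hy.1.1)
        (fun y => if q S H (cd.chiN p) (i + 1) y = 0 then (1 : ℝ) else -1)]
      exact Finset.sum_congr rfl fun y _ => (if_pos hC).symm
    · rw [if_neg hC]
      exact (Finset.sum_eq_zero fun y _ => if_neg hC).symm
  rw [h2, Rec.fsub F (fun y hy => (memF y).2 hy.1)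
    (fun y => if q S H (cd.chiN p) (i + 1) y = 0 then (1 : ℤ) else -1)]
  push_cast
  refine Finset.sum_congr rfl fun y hy => ?_
  have hpr := (memF y).1 hy
  obtain ⟨a0, ha0⟩ := exists_top h hc hp hi' hpr
  have hL := mem_LH_of h hc hp hi' ha0
  rw [Finset.sum_eq_single a0]
  · have hK : (∀ v, a0 ≠ cd.kapN J v) ↔ ¬ Rec.TopK (cd.chiN p) (i + 1) y := by
      rw [topK_iff h hc hp ha0]
      push Not
      rfl
    have e1 : (IsPr S (cd.chiN p) (i + 1) y ∧ ¬ Rec.TopK (cd.chiN p) (i + 1) y ∧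
        q S H (cd.chiN p) i ((2 : ℕ) • y) = 0) ↔ (¬ Rec.TopK (cd.chiN p) (i + 1) y ∧
        q S H (cd.chiN p) i ((2 : ℕ) • y) = 0) := ⟨fun h5 => h5.2, fun h5 => ⟨hpr, h5⟩⟩
    have e2 : (a0 ∈ LH cd p (i + 1) ∧ ∀ v, a0 ≠ cd.kapN J v) ↔
        ¬ Rec.TopK (cd.chiN p) (i + 1) y := ⟨fun h5 => hK.1 h5.2, fun h5 => ⟨hL, hK.2 h5⟩⟩
    have e3 : (AbvH cd p (i + 1) a0 y ∧ q S H (cd.chiN p) i ((2 : ℕ) • y) = 0) ↔
        q S H (cd.chiN p) i ((2 : ℕ) • y) = 0 := ⟨fun h5 => h5.2, fun h5 => ⟨ha0, h5⟩⟩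
    simp only [e1, e2, e3]
    by_cases hT : Rec.TopK (cd.chiN p) (i + 1) y
    · simp only [hT, not_true, false_and, if_false]
    · simp only [hT, not_false_iff, true_and, if_true]
  · intro a _ hne
    have h5 : ¬ (AbvH cd p (i + 1) a y ∧ q S H (cd.chiN p) i ((2 : ℕ) • y) = 0) := fun h6 =>
      hne (top_unique h hc hp h6.1 ha0)
    rw [if_neg h5, ite_self]
  · exact fun h5 => absurd (Finset.mem_univ a0) h5

/-- Every Selmer cocycle of level `i` is the first component of a rigid element. -/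
theorem exists_rigid' {chi : G → ZMod 2} {Psi : G → V} (hP : S.IsSel chi i Psi) :
    ∃ Q : Pl → V, IsPr S chi i ((Psi, Q) : (G → V) × (Pl → V)) := by
  classical
  choose Q hQ using hP.loc
  refine ⟨fun v => if v ∈ S.good then 0 else Q v, hP, fun v hv s hs => ?_, fun v hv => ?_⟩
  · change Psi s = dl chi (if v ∈ S.good then 0 else Q v) s
    rw [if_neg hv]
    exact hQ v s hs
  · exact if_pos hv

/-- `HFacts.succ`. -/
theorem hf_succ (h : S.Ok) (hB : BadOk S) (hc : cd.Ok) (hg : S.good = Set.range cd.pl)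
    (hp : cd.PVecN p) (hi : 1 ≤ i) (a : cd.CodeN J) : a ∈ LH cd p (i + 1) ↔
      ∃ y, AbvH cd p i a y ∧ ∀ b ∈ cd.SelpN p, CTr S (cd.chiN p) y (cd.homN p b) = 0 := by
  have hchi := chiN_hom h hc p
  constructor
  · intro ha
    have hv : cd.ValidN p a := (LH_sub_FN h hc hp (by omega) ha).1
    obtain ⟨Psi, hPsi, htop⟩ := (mem_LflN_iff (U := cd.VF p) h hc (fun _ => Iff.rfl) hp
      (by omega) ⟨a, hv⟩).1 ha
    obtain ⟨Q, hQ⟩ := exists_rigid' hPsi
    refine ⟨(2 : ℕ) • (Psi, Q), ⟨hQ.two, fun s => ?_, hv⟩, fun b hb =>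
      CTr_two h hchi hQ ((ExW.isRel_homN_iff h hc hg hb.1).2 hb)⟩
    obtain ⟨j, rfl⟩ := Nat.exists_eq_add_of_le' hi
    have h1 := htop s
    rw [Nat.add_sub_cancel] at h1
    rw [Nat.add_sub_cancel, ← h1, Prod.smul_fst, Pi.smul_apply, smul_smul, ← pow_succ]
  · rintro ⟨y, hy, hb⟩
    obtain ⟨y', hy', rfl⟩ := (ctr_crit h hB hchi hy.1).2 fun b hb' => by
      obtain ⟨c, hcs, rfl⟩ := ExW.isRel_surj h hc hg hp hb'
      exact hb c hcs
    refine mem_LH_of h hc hp (by omega) (y := y') ⟨hy', fun s => ?_, hy.val⟩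
    obtain ⟨j, rfl⟩ := Nat.exists_eq_add_of_le' hi
    have h1 := hy.2 s
    rw [Nat.add_sub_cancel, Prod.smul_fst, Pi.smul_apply, smul_smul, ← pow_succ] at h1
    rw [Nat.add_sub_cancel, h1]

open Classical in
/-- `HFacts.recur`. -/
theorem hf_recur (h : S.Ok) (hB : BadOk S) (hH : HOk S H) (hc : cd.Ok)
    (hg : S.good = Set.range cd.pl) (hp : cd.PVecN p) (hi : 1 ≤ i) :
    (nH S H (cd.chiN p) (i + 1) : ℝ) ≤ Nat.card V1 * nH S H (cd.chiN p) i +
      1 / 2 * (∑ᶠ ab : cd.CodeN J × cd.CodeN J,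
        if ab.1 ∈ LH cd p i ∧ ab.2 ∈ cd.SelpN p ∧ cd.Indep2N ab.1 ab.2 then
          NAH cd H p i ab.1 ab.2 else 0) +
      1 / 2 * (∑ᶠ a : cd.CodeN J,
        if a ∈ LH cd p (i + 1) ∧ (∀ z, a ≠ cd.kapN J z) then NTH cd H p i a else 0) := by
  have hchi := chiN_hom h hc p
  have hf := finite_rel h hc hg hp
  have h1 := Rec.two_nH_of h hH hchi hf (fun P => card_lift_sum h hB hchi hf P) hi
  have h2 : (2 * nH S H (cd.chiN p) (i + 1) : ℝ) =
      ((2 * (nH S H (cd.chiN p) (i + 1) : ℤ) : ℤ) : ℝ) := by push_cast; rfl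
  rw [h1, Int.cast_add] at h2
  have h3 := part_A (H := H) h hc hg hp hi
  have h4 := part_T (H := H) h hc hp hi
  rw [h4] at h2
  linarith

/-- `HFacts.zero`. -/
theorem hf_zero (h : S.Ok) (hB : BadOk S) (hH : HOk S H) (hc : cd.Ok) (hp : cd.PVecN p)
    (hd : ∀ P, H.deg (cd.pl P) = X.deg P) (hi : 1 ≤ i) {a : cd.CodeN J}
    (ha : a ∈ LH cd p (i + 1))
    (hno : ¬ ∃ w : cd.CodeN J, cd.ValidN p w ∧ ∀ l, cd.InhN p w a l) : NTH cd H p i a = 0 := by
  classical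
  have hchi := chiN_hom h hc p
  have hv : cd.ValidN p a := (LH_sub_FN h hc hp (by omega) ha).1
  obtain ⟨b, hb, h1⟩ := ExW.exists_wcode h hB hc hp hd a hno
  have h2 := Rec.sum_sign_zero h hH hchi hi hb h1
  rw [NTH, ← h2]
  let e : {y : (G → V) × (Pl → V) // AbvH cd p (i + 1) a y ∧
      q S H (cd.chiN p) i ((2 : ℕ) • y) = 0} ≃
      {y : (G → V) × (Pl → V) // (IsPr S (cd.chiN p) (i + 1) y ∧
        ∀ s, (2 : ℕ) ^ (i + 1 - 1) • y.1 s = S.iota (cd.homN p a s)) ∧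
        q S H (cd.chiN p) i ((2 : ℕ) • y) = 0} :=
    { toFun := fun y => ⟨y.1, ⟨y.2.1.1, y.2.1.2⟩, y.2.2⟩
      invFun := fun y => ⟨y.1, ⟨y.2.1.1, y.2.1.2, hv⟩, y.2.2⟩
      left_inv := fun _ => rfl
      right_inv := fun _ => rfl }
  exact finsum_comp_equiv e (f := fun y =>
    if q S H (cd.chiN p) (i + 1) y.1 = 0 then (1 : ℝ) else -1)

end HFOf

open HFOf in
/-- **The facts on one vector of marked primes.** -/
theorem hfacts_of {G V V1 Pl M : Type} [Group G] [AddCommGroup V] [DistribMulAction G V]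
    [AddCommGroup V1] [Module (ZMod 2) V1] [AddCommGroup M] [DistribMulAction G M]
    {S : Sys G V V1 Pl} {H : HData V M Pl} {X : PSys} {cd : CData S X} {J : Type} [Fintype J]
    {p : J → cd.Mk} (h : S.Ok) (hB : BadOk S) (hH : HOk S H) (hc : cd.Ok)
    (hg : S.good = Set.range cd.pl) (hd : ∀ P, H.deg (cd.pl P) = X.deg P) (hp : cd.PVecN p) :
    HFacts cd H p where
  fin := hf_fin h hc hp
  succ := fun _ hi a => hf_succ h hB hc hg hp hi a
  recur := fun _ hi => hf_recur h hB hH hc hg hp hi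
  zero := fun _ hi _ ha hno => hf_zero h hB hH hc hp hd hi ha hno
  basisA := fun _ hj _ ha _ hb hI => hf_basisA h hc hp hj ha hb hI
  basisT := fun _ hj _ ha ha0 => hf_basisT h hc hp hj ha ha0
  many := fun _ hj hex => hf_many h hH hc hp hj hex

end Pool.Agent.SmNH
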